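import Pool.Agent.Helper46.NU.Goals1

/-!
# MP_1fe1ca_lc: measurability of the random points (packet MZ)
-/

open MeasureTheory Filter Topology Set

noncomputable section

namespace NU.PkMZ

/-- A clopen function composed with a measurable function is measurable. -/
theorem meas_cf {S : Sys} {X : Type*} [MeasurableSpace X] (b : CF S) (f : X → Pt S)
    (hf : ∀ c n, Measurable fun x => f x c n) : Measurable fun x => b.1 (f x) := by
  classical
  obtain ⟨b, F, hF⟩ := b
  have h1 : Measurable fun x => fun p : F => f x p.1.1 p.1.2 :=
    measurable_pi_lambda _ fun p => hf _ _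
  have h2 : (fun x => b (f x)) = (fun v : F → Bool => b (fun c n => if h : (c, n) ∈ F then v ⟨(c, n), h⟩
      else false)) ∘ fun x => fun p : F => f x p.1.1 p.1.2 := by
    funext x
    simp only [Function.comp]
    apply hF
    intro p hp
    have : (p.1, p.2) ∈ F := hp
    simp [this]
  show Measurable fun x => b (f x)
  rw [h2]
  exact (measurable_of_finite _).comp h1

theorem meas_c (S : Sys) (φ : Ph S) (c : S.C) : ∀ n, Measurable fun ω => zz S φ ω c n := by
  classical
  refine S.wf.induction (C := fun c => ∀ n, Measurable fun ω => zz S φ ω c n) c ?_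
  intro c ih n
  have h1 : (fun ω => zz S φ ω c n) = fun ω => if n < (ω c).1 ∨ ¬ S.gen c then (ω c).2 n
      else (φ (c, n)).1 (mask S c (zz S φ ω)) := by
    funext ω
    exact zz_eq S φ ω c n
  rw [h1]
  have hc : Measurable fun ω : Om S => ω c := measurable_pi_apply c
  refine Measurable.ite ?_ ?_ ?_
  · have h2 : {a : Om S | n < (a c).1 ∨ ¬ S.gen c} = (fun ω : Om S => (ω c).1) ⁻¹' {m | n < m ∨ ¬ S.gen c} := rfl
    rw [h2]
    exact (measurable_fst.comp hc) (MeasurableSet.of_discrete)
  · exact (measurable_pi_apply n).comp (measurable_snd.comp hc)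
  · refine meas_cf _ _ fun c' m => ?_
    by_cases h : S.see c c'
    · simp only [mask, h, if_true]
      exact ih c' h m
    · simp only [mask, h, if_false]
      exact measurable_const

theorem mz : G_MZ := by
  intro S φ
  exact measurable_pi_lambda _ fun c => measurable_pi_lambda _ fun n => meas_c S φ c n

end NU.PkMZ
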